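import Mathlib
import Pool.Agent.Lib.MP_ad5f6c_nt.Estimates

namespace Pool.Agent.Results.MP_ad5f6c_nt.CodimOne

open MeasureTheory Filter

/-- The torus `𝕋^m = (ℝ/ℤ)^m`. Mathlib's norm on it is the maximum over the coordinates of the
distance to the nearest integer, that is the sup-norm distance to `ℤ^m`
(see `norm_toTorus_eq_infDist`). -/
abbrev Torus (m : ℕ) : Type := Fin m → UnitAddCircle

/-- The class in `𝕋^m` of a vector of `ℝ^m`. -/
def toTorus {m : ℕ} (x : Fin m → ℝ) : Torus m := fun i => (x i : UnitAddCircle)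

/-- `Bad_A`: the targets `η` with `liminf ‖q‖^(n/m) ⟨A q - η⟩ > 0` as `‖q‖ → ∞`, `q ∈ ℤ^n`
(the liminf is taken in the extended reals). -/
def Bad {m n : ℕ} (A : Matrix (Fin m) (Fin n) ℝ) : Set (Torus m) :=
  {η | (0 : EReal) < liminf (fun q : Fin n → ℤ =>
      ((‖q‖ ^ ((n : ℝ) / (m : ℝ)) * ‖toTorus (A.mulVec (fun j => (q j : ℝ))) - η‖ : ℝ) : EReal))
      (comap (fun q : Fin n → ℤ => ‖q‖) atTop)}

/-- `A` is singular: for every `ε > 0` there is `N₀` such that for every `N ≥ N₀` some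
`q ∈ ℤ^n` with `0 < ‖q‖ ≤ N` satisfies `⟨A q⟩ ≤ ε N^(-n/m)`. -/
def IsSingular {m n : ℕ} (A : Matrix (Fin m) (Fin n) ℝ) : Prop :=
  ∀ ε : ℝ, 0 < ε → ∃ N₀ : ℕ, ∀ N : ℕ, N₀ ≤ N → ∃ q : Fin n → ℤ, 0 < ‖q‖ ∧ ‖q‖ ≤ (N : ℝ) ∧
    ‖toTorus (A.mulVec (fun j => (q j : ℝ)))‖ ≤ ε * (N : ℝ) ^ (-((n : ℝ) / (m : ℝ)))

/-- `μ` is an algebraic measure of dimension `d` on `𝕋^m`: the image, under `t ↦ η₀ + t`, of
the Haar probability measure `ν` of a closed connected subgroup `T` of `𝕋^m` which is a torus of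
dimension `d`. -/
def IsAlgebraicMeasure {m : ℕ} (d : ℕ) (μ : Measure (Torus m)) : Prop :=
  ∃ (T : AddSubgroup (Torus m)) (η₀ : Torus m) (ν : Measure T),
    IsClosed (T : Set (Torus m)) ∧ IsConnected (T : Set (Torus m)) ∧
    Nonempty (T ≃ₜ+ (Fin d → UnitAddCircle)) ∧
    ν.IsAddHaarMeasure ∧ IsProbabilityMeasure ν ∧
    μ = ν.map (fun t : T => η₀ + (t : Torus m))

/-- Sanity check: the norm used above is the sup-norm distance to `ℤ^m`. -/
lemma norm_toTorus_eq_infDist {m : ℕ} (x : Fin m → ℝ) :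
    ‖toTorus x‖ = Metric.infDist x (Set.range (fun (z : Fin m → ℤ) (i : Fin m) => (z i : ℝ))) := by
  apply le_antisymm
  · rw [Metric.le_infDist (Set.range_nonempty _)]
    rintro _ ⟨z, rfl⟩
    rw [pi_norm_le_iff_of_nonneg dist_nonneg]
    intro i
    show ‖((x i : ℝ) : UnitAddCircle)‖ ≤ _
    rw [UnitAddCircle.norm_eq]
    calc |x i - round (x i)| ≤ |x i - z i| := round_le _ _
      _ = dist (x i) (z i : ℝ) := (Real.dist_eq _ _).symm
      _ ≤ _ := dist_le_pi_dist x (fun i => (z i : ℝ)) i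
  · refine le_trans (Metric.infDist_le_dist_of_mem ⟨fun i => round (x i), rfl⟩) ?_
    rw [dist_pi_le_iff (norm_nonneg _)]
    intro i
    rw [Real.dist_eq]
    have := norm_le_pi_norm (toTorus x) i
    refine le_trans (le_of_eq ?_) this
    show |x i - round (x i)| = ‖((x i : ℝ) : UnitAddCircle)‖
    rw [UnitAddCircle.norm_eq]

open Pool.Agent.Lib.MP_ad5f6c_nt

/-- The explicit `2 × 1` matrix. -/
noncomputable def A₀ : Matrix (Fin 2) (Fin 1) ℝ := fun i _ => if i = 0 then θ₁ else θ₂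

lemma A₀_mulVec_zero (q : Fin 1 → ℤ) :
    (A₀.mulVec (fun j => (q j : ℝ))) 0 = (q 0 : ℝ) * θ₁ := by
  simp [Matrix.mulVec, dotProduct, A₀, mul_comm]

lemma A₀_mulVec_one (q : Fin 1 → ℤ) :
    (A₀.mulVec (fun j => (q j : ℝ))) 1 = (q 0 : ℝ) * θ₂ := by
  simp [Matrix.mulVec, dotProduct, A₀, mul_comm]

lemma norm_fin_one (q : Fin 1 → ℤ) : ‖q‖ = |(q 0 : ℝ)| := by
  rw [Pi.norm_def]
  simp [Int.norm_eq_abs]

lemma not_isSingular_A₀ : ¬ IsSingular A₀ := by
  intro h
  obtain ⟨N₀, hN₀⟩ := h (1 / 10) (by norm_num)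
  -- choose `k` with `Q_k^2/4 ≥ N₀`
  obtain ⟨k, hk⟩ : ∃ k : ℕ, k = N₀ := ⟨_, rfl⟩
  obtain ⟨K, hK⟩ : ∃ K : ℕ, Q k = 2 * K := by
    have : 2 ∣ Q k := by
      unfold Q
      exact dvd_pow_self 2 (pow_ne_zero _ (by norm_num))
    obtain ⟨K, hK⟩ := this
    exact ⟨K, hK⟩
  have hK0 : 0 < K := by have := Q_pos k; omega
  have hKbig : N₀ ≤ K * K := by
    have h1 := pow_mul_Q_le 0 k
    rw [zero_add] at h1
    have h2 : k < 4 ^ k := Nat.lt_pow_self (by norm_num)
    have h3 : 1 ≤ Q 0 := Q_pos 0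
    have h4 : 4 ^ k * 1 ≤ 4 ^ k * Q 0 := Nat.mul_le_mul_left _ h3
    have h5 : k < 2 * K := by omega
    rw [← hk]
    nlinarith
  obtain ⟨q, hq0, hqN, hqA⟩ := hN₀ (K * K) hKbig
  rw [norm_fin_one] at hq0 hqN
  have hKR : (0 : ℝ) < (K : ℝ) := by exact_mod_cast hK0
  have hpow : ((K * K : ℕ) : ℝ) ^ (-(((1 : ℕ) : ℝ) / ((2 : ℕ) : ℝ))) = 1 / (K : ℝ) := by
    have e1 : ((K * K : ℕ) : ℝ) = (K : ℝ) ^ (2 : ℝ) := by
      push_cast
      rw [Real.rpow_two]; ring
    rw [e1, ← Real.rpow_mul hKR.le]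
    norm_num
    rw [Real.rpow_neg_one]
  rw [hpow] at hqA
  have hQK : (Q k : ℝ) = 2 * (K : ℝ) := by exact_mod_cast hK
  have hr : (1 / 10 : ℝ) * (1 / (K : ℝ)) = 1 / (5 * (Q k : ℝ)) := by
    rw [hQK]; field_simp; norm_num
  rw [hr] at hqA
  have hx : |(q 0 : ℝ) * θ₁ - (round ((q 0 : ℝ) * θ₁) : ℤ)| ≤ 1 / (5 * (Q k : ℝ)) := by
    refine le_trans ?_ hqA
    have h1 := norm_le_pi_norm (toTorus (A₀.mulVec (fun j => (q j : ℝ)))) 0
    refine le_trans (le_of_eq ?_) h1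
    show _ = ‖(((A₀.mulVec (fun j => (q j : ℝ))) 0 : ℝ) : UnitAddCircle)‖
    rw [A₀_mulVec_zero, UnitAddCircle.norm_eq]
  have hy : |(q 0 : ℝ) * θ₂ - (round ((q 0 : ℝ) * θ₂) : ℤ)| ≤ 1 / (5 * (Q k : ℝ)) := by
    refine le_trans ?_ hqA
    have h1 := norm_le_pi_norm (toTorus (A₀.mulVec (fun j => (q j : ℝ)))) 1
    refine le_trans (le_of_eq ?_) h1
    show _ = ‖(((A₀.mulVec (fun j => (q j : ℝ))) 1 : ℝ) : UnitAddCircle)‖
    rw [A₀_mulVec_one, UnitAddCircle.norm_eq]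
  refine nonsing k (q 0) _ _ ?_ ?_ hx hy
  · intro h0
    rw [h0] at hq0
    simp at hq0
  · rw [hQK]
    push_cast at hqN
    linarith [hqN]

/-- Every point `(0, s)` with `s ≠ 0` lies in `Bad_{A₀}`. -/
lemma mem_Bad (η : Torus 2) (h0 : η 0 = 0) (h1 : η 1 ≠ 0) : η ∈ Bad A₀ := by
  obtain ⟨c, hc⟩ : ∃ c : ℝ, c = ‖η 1‖ ^ 3 / 288 := ⟨_, rfl⟩
  have hc0 : 0 < c := by
    rw [hc]
    have : 0 < ‖η 1‖ := norm_pos_iff.mpr h1
    positivity
  have hsqrt : (0 : EReal) < ((Real.sqrt c : ℝ) : EReal) := by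
    exact_mod_cast Real.sqrt_pos.mpr hc0
  refine lt_of_lt_of_le hsqrt ?_
  refine le_liminf_of_le (by isBoundedDefault) ?_
  have hev : ∀ᶠ q : Fin 1 → ℤ in comap (fun q : Fin 1 → ℤ => ‖q‖) atTop, 1 ≤ ‖q‖ :=
    (eventually_ge_atTop (1 : ℝ)).comap _
  filter_upwards [hev] with q hq
  rw [EReal.coe_le_coe_iff]
  have hq' : q 0 ≠ 0 := by
    intro h
    rw [norm_fin_one, h] at hq
    norm_num at hq
  obtain ⟨r, hr⟩ : ∃ r : ℝ, r = ‖toTorus (A₀.mulVec (fun j => (q j : ℝ))) - η‖ := ⟨_, rfl⟩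
  have hr0 : 0 ≤ r := by rw [hr]; exact norm_nonneg _
  have hb := bad_bound (q 0) hq' (η 1) h1 r (by
      rw [hr]
      have e := norm_le_pi_norm (toTorus (A₀.mulVec (fun j => (q j : ℝ))) - η) 0
      refine le_trans (le_of_eq ?_) e
      show _ = ‖(((A₀.mulVec (fun j => (q j : ℝ))) 0 : ℝ) : UnitAddCircle) - η 0‖
      rw [A₀_mulVec_zero, h0, sub_zero]) (by
      rw [hr]
      have e := norm_le_pi_norm (toTorus (A₀.mulVec (fun j => (q j : ℝ))) - η) 1
      refine le_trans (le_of_eq ?_) e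
      show _ = ‖(((A₀.mulVec (fun j => (q j : ℝ))) 1 : ℝ) : UnitAddCircle) - η 1‖
      rw [A₀_mulVec_one])
  rw [← hr, ← hc] at *
  have hn : ‖q‖ ^ (((1 : ℕ) : ℝ) / ((2 : ℕ) : ℝ)) = Real.sqrt ‖q‖ := by
    rw [Real.sqrt_eq_rpow]; norm_num
  rw [hn, norm_fin_one]
  have h2 : Real.sqrt |(q 0 : ℝ)| * r = Real.sqrt (|(q 0 : ℝ)| * r ^ 2) := by
    rw [Real.sqrt_mul (abs_nonneg _), Real.sqrt_sq hr0]
  rw [h2]
  exact Real.sqrt_le_sqrt hb

/-- The subtorus `{0} × 𝕋` of `𝕋^2`. -/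
def T₀ : AddSubgroup (Torus 2) := (Pi.evalAddMonoidHom (fun _ : Fin 2 => UnitAddCircle) 0).ker

lemma mem_T₀ (t : Torus 2) : t ∈ T₀ ↔ t 0 = 0 := Iff.rfl

/-- `𝕋 ≅ T₀` as topological groups. -/
noncomputable def e₀ : T₀ ≃ₜ+ (Fin 1 → UnitAddCircle) where
  toFun t := fun _ => (t : Torus 2) 1
  invFun s := ⟨![0, s 0], by rw [mem_T₀]; simp⟩
  left_inv t := by
    apply Subtype.ext
    funext i
    fin_cases i
    · exact ((mem_T₀ _).mp t.2).symm
    · rfl
  right_inv s := by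
    funext i
    fin_cases i
    rfl
  map_add' s t := rfl
  continuous_toFun := by
    apply continuous_pi
    intro _
    exact (continuous_apply 1).comp continuous_subtype_val
  continuous_invFun := by
    apply Continuous.subtype_mk
    apply continuous_pi
    intro i
    fin_cases i
    · exact continuous_const
    · exact continuous_apply 0

lemma nontrivial_circle : Nontrivial UnitAddCircle := by
  refine ⟨⟨((1 / 2 : ℝ) : UnitAddCircle), 0, ?_⟩⟩
  intro h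
  have h1 : ‖((1 / 2 : ℝ) : UnitAddCircle)‖ = 0 := by rw [h, norm_zero]
  have h2 := AddCircle.norm_half_period_eq (p := (1 : ℝ))
  rw [h1] at h2
  norm_num at h2

theorem result : ∃ A : Matrix (Fin 2) (Fin 1) ℝ, ¬ IsSingular A ∧
    ∃ μ : Measure (Torus 2), IsAlgebraicMeasure 1 μ ∧ μ (Bad A) = 1 := by
  have := nontrivial_circle
  have hprob : IsProbabilityMeasure (volume : Measure UnitAddCircle) :=
    ⟨UnitAddCircle.measure_univ⟩
  have hnull : NullSingletonClass (volume : Measure UnitAddCircle) := inferInstance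
  have hnull1 : NullSingletonClass (volume : Measure (Fin 1 → UnitAddCircle)) := inferInstance
  have hprob1 : IsProbabilityMeasure (volume : Measure (Fin 1 → UnitAddCircle)) := inferInstance
  obtain ⟨ν, hν⟩ : ∃ ν : Measure T₀,
      ν = (volume : Measure (Fin 1 → UnitAddCircle)).map e₀.symm := ⟨_, rfl⟩
  have hmeas : Measurable (e₀.symm : (Fin 1 → UnitAddCircle) → T₀) :=
    e₀.symm.continuous.measurable
  have hνHaar : ν.IsAddHaarMeasure := by
    rw [hν]
    exact Measure.isAddHaarMeasure_map_of_isFiniteMeasure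
      (volume : Measure (Fin 1 → UnitAddCircle))
      (e₀.symm : (Fin 1 → UnitAddCircle) →+ T₀) e₀.symm.continuous e₀.symm.surjective
  have hνprob : IsProbabilityMeasure ν := by
    rw [hν]
    exact Measure.isProbabilityMeasure_map hmeas.aemeasurable
  have hmeas2 : Measurable (fun t : T₀ => (0 : Torus 2) + (t : Torus 2)) :=
    measurable_subtype_coe.const_add 0
  refine ⟨A₀, not_isSingular_A₀, ν.map (fun t : T₀ => (0 : Torus 2) + (t : Torus 2)),
    ⟨T₀, 0, ν, ?_, ?_, ⟨e₀⟩, hνHaar, hνprob, rfl⟩, ?_⟩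
  · exact isClosed_singleton.preimage (continuous_apply (A := fun _ : Fin 2 => UnitAddCircle) 0)
  · have h1 : (T₀ : Set (Torus 2)) = Set.range (fun s : Fin 1 → UnitAddCircle =>
        ((e₀.symm s : T₀) : Torus 2)) := by
      ext t
      constructor
      · intro ht
        exact ⟨e₀ ⟨t, ht⟩, by simp⟩
      · rintro ⟨s, rfl⟩
        exact (e₀.symm s).2
    rw [h1]
    exact isConnected_range (continuous_subtype_val.comp e₀.symm.continuous)
  · -- the measure of `Bad A₀`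
    have : IsProbabilityMeasure (ν.map (fun t : T₀ => (0 : Torus 2) + (t : Torus 2))) :=
      Measure.isProbabilityMeasure_map hmeas2.aemeasurable
    apply le_antisymm prob_le_one
    obtain ⟨G, hG⟩ : ∃ G : Set (Torus 2), G = {η | η 0 = 0} ∩ {η | η 1 ≠ 0} := ⟨_, rfl⟩
    have hGmeas : MeasurableSet G := by
      rw [hG]
      apply MeasurableSet.inter
      · exact (isClosed_singleton.preimage
          (continuous_apply (A := fun _ : Fin 2 => UnitAddCircle) 0)).measurableSet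
      · exact (isClosed_singleton.preimage
          (continuous_apply (A := fun _ : Fin 2 => UnitAddCircle) 1)).measurableSet.compl
    have hGsub : G ⊆ Bad A₀ := by
      rw [hG]
      rintro η ⟨h0, h1⟩
      exact mem_Bad η h0 h1
    have hGval : (ν.map (fun t : T₀ => (0 : Torus 2) + (t : Torus 2))) G = 1 := by
      rw [Measure.map_apply hmeas2 hGmeas, hν, Measure.map_apply hmeas (hmeas2 hGmeas)]
      have h2 : (e₀.symm : (Fin 1 → UnitAddCircle) → T₀) ⁻¹'
          ((fun t : T₀ => (0 : Torus 2) + (t : Torus 2)) ⁻¹' G)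
          = {(0 : Fin 1 → UnitAddCircle)}ᶜ := by
        ext s
        rw [Set.mem_preimage, Set.mem_preimage, zero_add, hG, Set.mem_compl_iff,
          Set.mem_singleton_iff]
        constructor
        · rintro ⟨_, h4⟩ h5
          apply h4
          rw [h5]
          rfl
        · intro h4
          refine ⟨rfl, ?_⟩
          intro h5
          apply h4
          funext i
          fin_cases i
          exact h5
      rw [h2, prob_compl_eq_one_iff (measurableSet_singleton _)]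
      exact measure_singleton _
    calc (1 : ENNReal) = (ν.map (fun t : T₀ => (0 : Torus 2) + (t : Torus 2))) G := hGval.symm
      _ ≤ _ := measure_mono hGsub

end Pool.Agent.Results.MP_ad5f6c_nt.CodimOne
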